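import Pool.Agent.W606.PS.Stm

set_option autoImplicit false

namespace Pool.Agent.W536.PS

open Pool.Agent.W606.PS

/-- Parent pointers with decreasing rank give a tree. -/
theorem tree_of_parent {N : Type} [Fintype N] (root : N) (par : N → N) (rk : N → ℕ)
    (h : ∀ x, x ≠ root → rk (par x) < rk x) :
    (SimpleGraph.fromRel (fun x y : N => x ≠ root ∧ par x = y)).IsTree := by
  have hne : ∀ x, x ≠ root → x ≠ par x := by
    intro x hx he
    have := h x hx
    rw [← he] at this
    exact lt_irrefl _ this
  have hadj : ∀ x, x ≠ root →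
      (SimpleGraph.fromRel (fun x y : N => x ≠ root ∧ par x = y)).Adj x (par x) := by
    intro x hx
    rw [SimpleGraph.fromRel_adj]
    exact ⟨hne x hx, Or.inl ⟨hx, rfl⟩⟩
  have hreach : ∀ n x, rk x ≤ n →
      (SimpleGraph.fromRel (fun x y : N => x ≠ root ∧ par x = y)).Reachable x root := by
    intro n
    induction n with
    | zero =>
      intro x hx
      by_cases hr : x = root
      · rw [hr]
      · have := h x hr
        omega
    | succ n ih =>
      intro x hx
      by_cases hr : x = root
      · rw [hr]
      · have h1 := h x hr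
        exact (hadj x hr).reachable.trans (ih (par x) (by omega))
  rw [SimpleGraph.isTree_iff_connected_and_card]
  refine ⟨?_, ?_⟩
  · have : Nonempty N := ⟨root⟩
    exact ⟨fun x y => (hreach _ x le_rfl).trans (hreach _ y le_rfl).symm⟩
  · have hset : (SimpleGraph.fromRel (fun x y : N => x ≠ root ∧ par x = y)).edgeSet
        = (fun x => s(x, par x)) '' {x | x ≠ root} := by
      ext e
      induction e using Sym2.ind with
      | _ x y =>
      rw [SimpleGraph.mem_edgeSet, SimpleGraph.fromRel_adj]
      constructor
      · rintro ⟨_, ⟨h1, h2⟩ | ⟨h1, h2⟩⟩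
        · exact ⟨x, h1, by simp only [h2]⟩
        · refine ⟨y, h1, ?_⟩
          simp only [h2]
          exact Sym2.eq_swap
      · rintro ⟨z, hz, he⟩
        rcases Sym2.eq_iff.1 he with ⟨h1, h2⟩ | ⟨h1, h2⟩
        · subst h1
          subst h2
          exact ⟨hne z hz, Or.inl ⟨hz, rfl⟩⟩
        · subst h1
          subst h2
          exact ⟨(hne z hz).symm, Or.inr ⟨hz, rfl⟩⟩
    have hinj : Set.InjOn (fun x => s(x, par x)) {x : N | x ≠ root} := by
      intro x hx y hy he
      rcases Sym2.eq_iff.1 he with ⟨h1, _⟩ | ⟨h1, h2⟩
      · exact h1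
      · have k1 := h x hx
        have k2 := h y hy
        rw [h2] at k1
        rw [← h1] at k2
        omega
    rw [hset, Nat.card_coe_set_eq, hinj.ncard_image]
    have hc : ({x : N | x ≠ root} : Set N) = ({root} : Set N)ᶜ := by
      ext x
      rfl
    rw [hc, Set.ncard_compl, Set.ncard_singleton]
    have : 0 < Nat.card N := Nat.card_pos_iff.2 ⟨⟨root⟩, inferInstance⟩
    omega

/-- The general form of the tree decomposition. -/
theorem td_of {V W N : Type} [Fintype N] (G : SimpleGraph V) (e : W ≃ V) (w : ℕ) (T : SimpleGraph N)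
    (B : N → Finset W) (hT : T.IsTree)
    (h1 : ∀ u v, G.Adj (e u) (e v) → ∃ t, u ∈ B t ∧ v ∈ B t)
    (h2 : ∀ v, (T.induce {t | v ∈ B t}).Connected) (h3 : ∀ t, (B t).card ≤ w) : TD G w := by
  classical
  have e2 : N ≃ Fin (Fintype.card N) := Fintype.equivFin N
  refine ⟨Fintype.card N, T.comap e2.symm, fun t => (B (e2.symm t)).map e.toEmbedding, ?_, ?_, ?_, ?_⟩
  · exact (SimpleGraph.Iso.isTree_iff (SimpleGraph.Iso.comap e2.symm T)).2 hT
  · intro u v huv
    obtain ⟨t, ht⟩ := h1 (e.symm u) (e.symm v) (by simpa using huv)
    refine ⟨e2 t, ?_, ?_⟩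
    · simp only [Equiv.symm_apply_apply]
      exact Finset.mem_map.2 ⟨e.symm u, ht.1, by simp⟩
    · simp only [Equiv.symm_apply_apply]
      exact Finset.mem_map.2 ⟨e.symm v, ht.2, by simp⟩
  · intro v
    have hiso : Nonempty ((T.comap e2.symm).induce
        {t | v ∈ (B (e2.symm t)).map e.toEmbedding} ≃g T.induce {t | e.symm v ∈ B t}) := by
      refine ⟨⟨⟨fun t => ⟨e2.symm t.1, ?_⟩, fun t => ⟨e2 t.1, ?_⟩, ?_, ?_⟩, ?_⟩⟩
      · have := t.2
        simp only [Set.mem_setOf_eq, Finset.mem_map] at this
        obtain ⟨a, ha, hav⟩ := this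
        have : e.symm v = a := by
          rw [← hav]
          simp
        simp only [Set.mem_setOf_eq, this]
        exact ha
      · have := t.2
        simp only [Set.mem_setOf_eq] at this
        simp only [Set.mem_setOf_eq, Equiv.symm_apply_apply]
        exact Finset.mem_map.2 ⟨e.symm v, this, by simp⟩
      · intro t
        simp
      · intro t
        simp
      · intro a b
        simp
    obtain ⟨i⟩ := hiso
    exact (SimpleGraph.Iso.connected_iff i).2 (h2 _)
  · intro t
    simpa using h3 _

theorem main : S_OUT := by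
  classical
  intro V _ G M c hO
  obtain ⟨P, _, rk, C, part, lev, hM, hl, hcard, hrk, hC3, hCl, hadj⟩ := hO
  -- the index in the fibre
  have hg : ∀ p j, Nonempty ({v | part v = p ∧ lev v = j} ↪ Fin c) := by
    intro p j
    apply Function.Embedding.nonempty_of_card_le
    rw [Fintype.card_fin, ← Nat.card_eq_fintype_card, Nat.card_coe_set_eq]
    exact hcard p j
  let g : ∀ p j, {v | part v = p ∧ lev v = j} ↪ Fin c := fun p j => (hg p j).some
  let idx : V → Fin c := fun v => g (part v) (lev v) ⟨v, rfl, rfl⟩
  have hidx : ∀ u p j (h : part u = p ∧ lev u = j), idx u = g p j ⟨u, h⟩ := by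
    rintro u p j ⟨rfl, rfl⟩
    rfl
  have hinj : ∀ u v, part u = part v → lev u = lev v → idx u = idx v → u = v := by
    intro u v h1 h2 h3
    rw [hidx u (part v) (lev v) ⟨h1, h2⟩, hidx v (part v) (lev v) ⟨rfl, rfl⟩] at h3
    have := (g (part v) (lev v)).injective h3
    exact congrArg Subtype.val this
  -- the graph
  let H' : SimpleGraph (P × Fin c) := SimpleGraph.fromRel
    (fun x y => x.1 = y.1 ∨ x.1 ∈ C y.1 ∨ y.1 ∈ C x.1)
  have e : P × Fin c ≃ Fin (Fintype.card (P × Fin c)) := Fintype.equivFin _
  refine ⟨Fintype.card (P × Fin c), H'.comap e.symm, ?_, ?_⟩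
  · -- the tree decomposition
    have hpar : ∀ p : P, ∃ r : Option P, (C p = ∅ → r = none) ∧
        (C p ≠ ∅ → ∃ q, r = some q ∧ q ∈ C p ∧ ∀ q' ∈ C p, rk q' ≤ rk q) := by
      intro p
      by_cases h : C p = ∅
      · exact ⟨none, fun _ => rfl, fun h' => absurd h h'⟩
      · obtain ⟨q, hq, hq'⟩ := Finset.exists_max_image (C p) rk (Finset.nonempty_iff_ne_empty.2 h)
        exact ⟨some q, fun h' => absurd h' h, fun _ => ⟨q, rfl, hq, hq'⟩⟩
    choose par0 hpar0 hpar1 using hpar
    let par : Option P → Option P := fun x => x.elim none par0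
    let rk' : Option P → ℕ := fun x => x.elim 0 (fun p => rk p + 1)
    have hdec : ∀ x, x ≠ none → rk' (par x) < rk' x := by
      intro x hx
      cases x with
      | none => exact absurd rfl hx
      | some p =>
        change rk' (par0 p) < rk p + 1
        by_cases h : C p = ∅
        · rw [hpar0 p h]
          exact Nat.succ_pos _
        · obtain ⟨q, h1, h2, _⟩ := hpar1 p h
          rw [h1]
          change rk q + 1 < rk p + 1
          have := hrk p q h2
          omega
    have hT := tree_of_parent (N := Option P) none par rk' hdec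
    set T := SimpleGraph.fromRel (fun x y : Option P => x ≠ none ∧ par x = y) with hTdef
    let B : Option P → Finset (P × Fin c) := fun x =>
      x.elim ∅ (fun p => (insert p (C p)) ×ˢ Finset.univ)
    have hB : ∀ (p : P) (v : P × Fin c), v ∈ B (some p) ↔ (v.1 = p ∨ v.1 ∈ C p) := by
      intro p v
      change v ∈ (insert p (C p)) ×ˢ (Finset.univ : Finset (Fin c)) ↔ _
      rw [Finset.mem_product, Finset.mem_insert]
      exact ⟨fun h => h.1, fun h => ⟨h, Finset.mem_univ _⟩⟩
    refine td_of (H'.comap e.symm) e (4 * c) T B hT ?_ ?_ ?_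
    · intro u v huv
      have huv' : H'.Adj u v := by simpa using huv
      rw [SimpleGraph.fromRel_adj] at huv'
      have h3 : u.1 = v.1 ∨ u.1 ∈ C v.1 ∨ v.1 ∈ C u.1 := by
        rcases huv'.2 with h | h
        · exact h
        · rcases h with h | h | h
          · exact Or.inl h.symm
          · exact Or.inr (Or.inr h)
          · exact Or.inr (Or.inl h)
      rcases h3 with h | h | h
      · exact ⟨some v.1, (hB _ _).2 (Or.inl h), (hB _ _).2 (Or.inl rfl)⟩
      · exact ⟨some v.1, (hB _ _).2 (Or.inr h), (hB _ _).2 (Or.inl rfl)⟩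
      · exact ⟨some u.1, (hB _ _).2 (Or.inl rfl), (hB _ _).2 (Or.inr h)⟩
    · intro v
      have hv0 : (some v.1 : Option P) ∈ {t | v ∈ B t} := (hB _ _).2 (Or.inl rfl)
      have hreach : ∀ n (p : P), rk p ≤ n → ∀ (hp : (some p : Option P) ∈ {t | v ∈ B t}),
          (T.induce {t | v ∈ B t}).Reachable ⟨some p, hp⟩ ⟨some v.1, hv0⟩ := by
        intro n
        induction n with
        | zero =>
          intro p hpn hp
          rcases (hB _ _).1 hp with h | h
          · subst h
            exact SimpleGraph.Reachable.refl _
          · have := hrk p _ h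
            omega
        | succ n ih =>
          intro p hpn hp
          rcases (hB _ _).1 hp with h | h
          · subst h
            exact SimpleGraph.Reachable.refl _
          · have hne : C p ≠ ∅ := Finset.ne_empty_of_mem h
            obtain ⟨r, h1, h2, h3⟩ := hpar1 p hne
            have hr : (some r : Option P) ∈ {t | v ∈ B t} := by
              refine (hB _ _).2 ?_
              rcases hCl p v.1 h r h2 with h4 | h4 | h4
              · exact Or.inl h4
              · exact Or.inr h4
              · have k1 := hrk _ _ h4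
                have k2 := h3 _ h
                omega
            have hadj' : (T.induce {t | v ∈ B t}).Adj ⟨some p, hp⟩ ⟨some r, hr⟩ := by
              rw [SimpleGraph.comap_adj]
              change T.Adj (some p) (some r)
              rw [hTdef, SimpleGraph.fromRel_adj]
              refine ⟨?_, Or.inl ⟨Option.some_ne_none _, h1⟩⟩
              intro he
              have he' : p = r := Option.some_injective _ he
              have := hrk p r h2
              rw [he'] at this
              exact lt_irrefl _ this
            have k3 := hrk p r h2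
            exact hadj'.reachable.trans (ih r (by omega) hr)
      have hall : ∀ t : {t | v ∈ B t}, (T.induce {t | v ∈ B t}).Reachable t ⟨some v.1, hv0⟩ := by
        rintro ⟨t, ht⟩
        cases t with
        | none => exact absurd ht (Finset.notMem_empty _)
        | some p => exact hreach _ p le_rfl ht
      have : Nonempty {t | v ∈ B t} := ⟨⟨some v.1, hv0⟩⟩
      exact ⟨fun x y => (hall x).trans (hall y).symm⟩
    · intro t
      cases t with
      | none =>
        change (∅ : Finset (P × Fin c)).card ≤ _
        simp
      | some p =>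
        change ((insert p (C p)) ×ˢ (Finset.univ : Finset (Fin c))).card ≤ _
        rw [Finset.card_product, Finset.card_univ, Fintype.card_fin]
        apply Nat.mul_le_mul_right
        have := Finset.card_insert_le p (C p)
        have := hC3 p
        omega
  · -- the embedding
    let f : V → Fin (Fintype.card (P × Fin c)) × Fin (M + 1) := fun v =>
      (e (part v, idx v), ⟨lev v, Nat.lt_succ_of_le (hM v)⟩)
    have hf : Function.Injective f := by
      intro u v huv
      have h1 : e (part u, idx u) = e (part v, idx v) := congrArg Prod.fst huv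
      have h2 : (⟨lev u, Nat.lt_succ_of_le (hM u)⟩ : Fin (M + 1)) = ⟨lev v, Nat.lt_succ_of_le (hM v)⟩ :=
        congrArg Prod.snd huv
      have h3 := e.injective h1
      exact hinj u v (congrArg Prod.fst h3) (congrArg Fin.val h2) (congrArg Prod.snd h3)
    refine ⟨⟨f, ?_⟩, hf⟩
    intro u v huv
    unfold SP
    rw [SimpleGraph.fromRel_adj]
    refine ⟨fun h => huv.ne (hf h), Or.inl ⟨?_, ?_⟩⟩
    · by_cases h : (f u).1 = (f v).1
      · exact Or.inl h
      · right
        rw [SimpleGraph.comap_adj]
        change H'.Adj (e.symm (e (part u, idx u))) (e.symm (e (part v, idx v)))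
        rw [Equiv.symm_apply_apply, Equiv.symm_apply_apply, SimpleGraph.fromRel_adj]
        refine ⟨fun h' => h (congrArg e h'), Or.inl (hadj u v huv)⟩
    · have k1 := hl u v huv
      have k2 := hl v u huv.symm
      by_cases h : lev u = lev v
      · exact Or.inl (Fin.ext h)
      · right
        rw [SimpleGraph.pathGraph_adj]
        change lev u + 1 = lev v ∨ lev v + 1 = lev u
        omega

end Pool.Agent.W536.PS
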